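import Pool.Agent.Helper49.PA.GoalsA

/-! Packet PARTA (problem MP_c20641_lc): canonical partition representations exist. -/

namespace PA49.PkPartA

open Combinatorics

variable {L : Type} [Lattice L] [BoundedOrder L]

theorem base_mono {X : Type} {k : X → X → L} {S T : Set X} (h : S ⊆ T) (hS : Base k S) :
    Base k T := by
  refine ⟨fun r hr => ?_, fun r s hrs => ?_⟩
  · obtain ⟨x, hx, y, hy, z, hz, h1⟩ := hS.1 r hr
    exact ⟨x, h hx, y, h hy, z, h hz, h1⟩
  · exact hS.2 r s fun x hx y hy => hrs x (h hx) y (h hy)

theorem base_image {X Y : Type} {kX : X → X → L} {kY : Y → Y → L} (g : X → Y)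
    (hg : ∀ x y, kY (g x) (g y) = kX x y) {S : Set X} (hS : Base kX S) : Base kY (g '' S) := by
  refine ⟨fun r hr => ?_, fun r s hrs => ?_⟩
  · obtain ⟨x, hx, y, hy, z, hz, h1⟩ := hS.1 r hr
    refine ⟨g x, ⟨x, hx, rfl⟩, g y, ⟨y, hy, rfl⟩, g z, ⟨z, hz, rfl⟩, ?_⟩
    rw [hg, hg, hg]
    exact h1
  · refine hS.2 r s fun x hx y hy => ?_
    have h := hrs (g x) ⟨x, hx, rfl⟩ (g y) ⟨y, hy, rfl⟩
    rw [hg] at h
    exact h

theorem cpp_base {X : Type} {k : X → X → L} : ∀ (n : ℕ) {S : Set X}, CPP k n S → Base k S
  | 0, _, h => h
  | _ + 1, _, h => h.1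

theorem cpp_image {X Y : Type} {kX : X → X → L} {kY : Y → Y → L} (g : X → Y)
    (hg : ∀ x y, kY (g x) (g y) = kX x y) :
    ∀ (n : ℕ) {S : Set X}, CPP kX n S → CPP kY n (g '' S)
  | 0, _, h => base_image g hg h
  | n + 1, S, h => by
    refine ⟨base_image g hg h.1, fun Θ hΘ => ?_⟩
    obtain ⟨T, hTS, hT, r, hr⟩ := h.2 (fun x y => Θ (g x) (g y))
      ⟨fun x => hΘ.refl _, fun h => hΘ.symm h, fun h h' => hΘ.trans h h'⟩
    refine ⟨g '' T, Set.image_mono hTS, cpp_image g hg n hT, r, ?_⟩
    rintro _ ⟨x, hx, rfl⟩ _ ⟨y, hy, rfl⟩
    rw [hg]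
    exact hr x hx y hy

/-- The one-point space over a trivial lattice. -/
theorem cpp_triv {X : Type} [Subsingleton L] [Subsingleton X] (k : X → X → L) :
    ∀ (n : ℕ) (S : Set X), CPP k n S := by
  have hb : ∀ S : Set X, Base k S := fun S =>
    ⟨fun r hr => absurd (Subsingleton.elim r ⊥) hr, fun r s _ => Subsingleton.elim r s⟩
  intro n
  induction n with
  | zero => exact fun S => hb S
  | succ n ih =>
    intro S
    refine ⟨hb S, fun Θ hΘ => ⟨S, subset_rfl, ih S, ⊤, fun x _ y _ => ?_⟩⟩
    have h1 : x = y := Subsingleton.elim x y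
    have h2 : (⊤ : L) ≤ k x y := le_of_eq (Subsingleton.elim _ _)
    exact ⟨fun _ => h2, fun _ => by rw [h1]; exact hΘ.refl _⟩

open Classical in
/-- The star space. -/
noncomputable def starK : Option {s : L // s ≠ ⊤} → Option {s : L // s ≠ ⊤} → L
  | none, none => ⊤
  | none, some s => s.1
  | some s, none => s.1
  | some s, some t => if s = t then ⊤ else s.1 ⊓ t.1

noncomputable def starSim : Sim L (Option {s : L // s ≠ ⊤}) where
  k := starK
  refl x := by
    cases x with
    | none => rfl
    | some s => simp [starK]
  symm x y := by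
    cases x with
    | none =>
      cases y with
      | none => rfl
      | some t => rfl
    | some s =>
      cases y with
      | none => rfl
      | some t =>
        simp only [starK]
        by_cases h : s = t
        · subst h; rfl
        · rw [if_neg h, if_neg (fun h' => h h'.symm), inf_comm]
  tri x y z := by
    cases x with
    | none =>
      cases y with
      | none =>
        cases z with
        | none => simp [starK]
        | some u => simp [starK]
      | some t =>
        cases z with
        | none => simp [starK]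
        | some u =>
          simp only [starK]
          by_cases h : t = u
          · subst h; simp
          · rw [if_neg h]
            exact inf_le_right.trans inf_le_right
    | some s =>
      cases y with
      | none =>
        cases z with
        | none => simp [starK]
        | some u =>
          simp only [starK]
          by_cases h : s = u
          · rw [if_pos h]; exact le_top
          · rw [if_neg h]
      | some t =>
        cases z with
        | none =>
          simp only [starK]
          by_cases h : s = t
          · subst h; simp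
          · rw [if_neg h]
            exact inf_le_left.trans inf_le_left
        | some u =>
          simp only [starK]
          by_cases h2 : s = u
          · rw [if_pos h2]; exact le_top
          · rw [if_neg h2]
            by_cases h : s = t
            · subst h
              rw [if_pos rfl, if_neg h2, top_inf_eq]
            · rw [if_neg h]
              by_cases h3 : t = u
              · subst h3
                rw [if_pos rfl, inf_top_eq]
              · rw [if_neg h3]
                exact le_inf (inf_le_left.trans inf_le_left) (inf_le_right.trans inf_le_right)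
  sep x y h := by
    cases x with
    | none =>
      cases y with
      | none => rfl
      | some t => exact absurd h t.2
    | some s =>
      cases y with
      | none => exact absurd h s.2
      | some t =>
        simp only [starK] at h
        by_cases h1 : s = t
        · rw [h1]
        · rw [if_neg h1] at h
          exact absurd (top_le_iff.mp (h.symm.le.trans inf_le_left)) s.2

theorem star_val (r : L) : ∃ x y : Option {s : L // s ≠ ⊤}, starSim.k x y = r := by
  by_cases h : r = ⊤
  · exact ⟨none, none, h.symm⟩
  · exact ⟨none, some ⟨r, h⟩, rfl⟩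

theorem pow_const {X : Type} (s : Sim L X) (ι : Type) [Fintype ι] [Nonempty ι] (a b : X) :
    (powSim s ι).k (fun _ => a) (fun _ => b) = s.k a b := by
  change Finset.univ.inf (fun _ : ι => s.k a b) = s.k a b
  exact Finset.inf_const Finset.univ_nonempty _

theorem pow_le {X : Type} (s : Sim L X) {ι : Type} [Fintype ι] (x y : ι → X) (i : ι) :
    (powSim s ι).k x y ≤ s.k (x i) (y i) :=
  Finset.inf_le (f := fun i => s.k (x i) (y i)) (Finset.mem_univ i)

theorem le_pow {X : Type} (s : Sim L X) {ι : Type} [Fintype ι] (x y : ι → X) (r : L) :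
    r ≤ (powSim s ι).k x y ↔ ∀ i, r ≤ s.k (x i) (y i) := by
  constructor
  · exact fun h i => h.trans (pow_le s x y i)
  · exact fun h => Finset.le_inf fun i _ => h i

theorem base_star (hL : (⊥ : L) ≠ ⊤) :
    Base (powSim (starSim (L := L)) (Fin 2)).k Set.univ := by
  refine ⟨fun r hr => ?_, fun r s h => ?_⟩
  · refine ⟨fun _ => none, trivial, fun i => if i = 0 then none else some ⟨⊥, hL⟩, trivial,
      fun i => if i = 0 then some ⟨⊥, hL⟩ else none, trivial, ?_, ?_, ?_⟩
    · intro h
      have := h.trans (pow_le _ _ _ 1)
      exact hr (le_bot_iff.mp this)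
    · intro h
      have := h.trans (pow_le _ _ _ 0)
      exact hr (le_bot_iff.mp this)
    · intro h
      have := h.trans (pow_le _ _ _ 0)
      exact hr (le_bot_iff.mp this)
  · apply le_antisymm
    · obtain ⟨x, y, hxy⟩ := star_val s
      have := (h (fun _ => x) trivial (fun _ => y) trivial).2
      rw [pow_const, hxy] at this
      exact this le_rfl
    · obtain ⟨x, y, hxy⟩ := star_val r
      have := (h (fun _ => x) trivial (fun _ => y) trivial).1
      rw [pow_const, hxy] at this
      exact this le_rfl

theorem claim (h1 : G_GOOD) (h2 : G_CHJ) [Finite L] (hL : (⊥ : L) ≠ ⊤) (n : ℕ) :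
    ∃ (X : Type) (_ : Finite X) (s : Sim L X) (ι : Type) (_ : Fintype ι),
      CPP (powSim s ι).k n Set.univ := by
  induction n with
  | zero => exact ⟨_, inferInstance, starSim, Fin 2, inferInstance, base_star hL⟩
  | succ n ih =>
    obtain ⟨X, hX, s, κ, hκ, hc⟩ := ih
    obtain ⟨Z, hZ, z, hz⟩ := h1 L X s
    obtain ⟨ι, hι, hchj⟩ := h2 Z (κ × (X → Z))
    have hι' : Fintype ι := Fintype.ofFinite ι
    refine ⟨Z, hZ, z, ι, hι', ?_⟩
    have key : ∀ Θ : (ι → Z) → (ι → Z) → Prop, Equivalence Θ →
        ∃ T ⊆ (Set.univ : Set (ι → Z)), CPP (powSim z ι).k n T ∧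
          ∃ r : L, ∀ x ∈ T, ∀ y ∈ T, (Θ x y ↔ r ≤ (powSim z ι).k x y) := by
      intro Θ hΘ
      obtain ⟨S, ψ, hψ, hS⟩ := hchj Θ hΘ
      obtain ⟨F, hF, ⟨f0, hf0, hiso⟩, r, hr⟩ := hz ψ hψ
      classical
      let g : (κ → X) → (κ × (X → Z) → Z) := fun x p =>
        if p.2 ∈ F then p.2 (x p.1) else f0 (x p.1)
      have hJ : ∀ x y, (powSim z ι).k (S (g x)) (S (g y)) = (powSim s κ).k x y := by
        intro x y
        apply le_antisymm
        · rw [le_pow]
          intro i
          obtain ⟨p, hp⟩ := S.proper (i, f0)
          have h3 := pow_le z (S (g x)) (S (g y)) p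
          rw [Subspace.apply_inr hp, Subspace.apply_inr hp] at h3
          have h4 : ∀ x, g x (i, f0) = f0 (x i) := fun x => by
            simp only [g, ite_self]
          rw [h4, h4, hiso] at h3
          exact h3
        · rw [le_pow]
          intro p
          rcases hp : S.idxFun p with a | e
          · rw [Subspace.apply_inl hp, Subspace.apply_inl hp, z.refl]
            exact le_top
          · rw [Subspace.apply_inr hp, Subspace.apply_inr hp]
            by_cases he : e.2 ∈ F
            · have h4 : ∀ x, g x e = e.2 (x e.1) := fun x => by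
                simp only [g, if_pos he]
              rw [h4, h4]
              exact (pow_le s x y e.1).trans (hF _ he _ _)
            · have h4 : ∀ x, g x e = f0 (x e.1) := fun x => by
                simp only [g, if_neg he]
              rw [h4, h4]
              exact (pow_le s x y e.1).trans (hF _ hf0 _ _)
      refine ⟨(fun x => S (g x)) '' Set.univ, Set.subset_univ _,
        cpp_image (fun x => S (g x)) hJ n hc, r, ?_⟩
      rintro _ ⟨x, -, rfl⟩ _ ⟨y, -, rfl⟩
      change Θ (S (g x)) (S (g y)) ↔ r ≤ (powSim z ι).k (S (g x)) (S (g y))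
      rw [hS, hJ, le_pow]
      constructor
      · intro h i
        rw [← hr]
        intro f hf
        have := h (i, f)
        simp only [g, if_pos hf] at this
        exact this
      · intro h e
        have h5 := (hr _ _).2 (h e.1)
        by_cases he : e.2 ∈ F
        · simp only [g, if_pos he]
          exact h5 _ he
        · simp only [g, if_neg he]
          exact h5 _ hf0
    refine ⟨?_, key⟩
    obtain ⟨T, -, hT, -⟩ := key Eq eq_equivalence
    exact base_mono (Set.subset_univ T) (cpp_base n hT)

theorem parta (h1 : G_GOOD) (h2 : G_CHJ) : G_PARTA := by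
  intro L _ _ _ n
  by_cases hL : (⊥ : L) = ⊤
  · have : Subsingleton L := subsingleton_of_bot_eq_top hL
    have : Subsingleton (Fin (0 + 1)) := inferInstanceAs (Subsingleton (Fin 1))
    refine ⟨0, ⟨⟨fun _ _ => ⊤, fun _ => rfl, fun _ _ => rfl, fun _ _ _ => le_top⟩,
      fun x y _ => Subsingleton.elim x y⟩, cpp_triv _ n _⟩
  · obtain ⟨X, hX, s, ι, hι, hc⟩ := claim h1 h2 hL n
    have hfin : Finite (ι → X) := inferInstance
    have hne : Nonempty (ι → X) := by
      obtain ⟨x, -, -⟩ := (cpp_base n hc).1 ⊤ (fun h => hL h.symm)
      exact ⟨x⟩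
    have : Fintype (ι → X) := Fintype.ofFinite _
    obtain ⟨m, hm⟩ : ∃ m, Fintype.card (ι → X) = m + 1 :=
      ⟨Fintype.card (ι → X) - 1, (Nat.sub_add_cancel Fintype.card_pos).symm⟩
    let e : (ι → X) ≃ Fin (m + 1) := Fintype.equivFinOfCardEq hm
    let s' : Sim L (Fin (m + 1)) :=
      { k := fun a b => (powSim s ι).k (e.symm a) (e.symm b)
        refl := fun a => (powSim s ι).refl _
        symm := fun a b => (powSim s ι).symm _ _
        tri := fun a b c => (powSim s ι).tri _ _ _
        sep := fun a b h => e.symm.injective ((powSim s ι).sep _ _ h) }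
    refine ⟨m, s', ?_⟩
    have h3 : CPP s'.k n (e '' Set.univ) := by
      refine cpp_image e (fun x y => ?_) n hc
      change (powSim s ι).k (e.symm (e x)) (e.symm (e y)) = _
      rw [e.symm_apply_apply, e.symm_apply_apply]
    rwa [Set.image_univ, e.surjective.range_eq] at h3

end PA49.PkPartA
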